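import Pool.Agent.P8H93.PC

set_option autoImplicit false

/-!
# The proportional choice number of complete bipartite graphs: an infinite family

For all even `n < m` with the same 2-adic valuation the graph `K_{n,m}` violates condition (H) and
is not proportionally `(n + m) / 2`-choosable.  (The case `(2, 6)` is the starting file TwoSix.)
-/

namespace Pool.Agent.Results.MP_f0eba7_co.BipartiteCounterexamples

open Finset Pool.Agent.H.MP_f66848_co

/-- The complete multipartite graph `K_{n_1, …, n_t}`. -/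
abbrev K {t : ℕ} (n : Fin t → ℕ) : SimpleGraph (Σ i, Fin (n i)) :=
  SimpleGraph.completeMultipartiteGraph (fun i => Fin (n i))

/-- Condition (H): every `n_i` is even and `max n_i ≤ s`, where `s = ∑ n_i / 2`. -/
def CondH {t : ℕ} (n : Fin t → ℕ) : Prop := (∀ i, Even (n i)) ∧ ∀ i, n i ≤ ∑ j, n j / 2

theorem not_condH {n m : ℕ} (h : n < m) : ¬ CondH ![n, m] := by
  rintro ⟨he, hm⟩
  have e0 := he 0
  have e1 := he 1
  have h2 := hm 1
  simp only [Fin.sum_univ_two, Matrix.cons_val_zero, Matrix.cons_val_one] at e0 e1 h2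
  obtain ⟨x, hx⟩ := e0
  obtain ⟨y, hy⟩ := e1
  omega

theorem not_prop {n m : ℕ} (h1 : 1 ≤ n) (h : n < m) (hn : Even n)
    (hv : padicValNat 2 n = padicValNat 2 m) :
    ¬ PropChoosable (K ![n, m]) (∑ i, (![n, m] i + 1) / 2) := by
  obtain ⟨a, ha⟩ := pow_padicValNat_dvd (p := 2) (n := n)
  obtain ⟨b, hb⟩ := pow_padicValNat_dvd (p := 2) (n := m)
  rw [← hv] at hb
  obtain ⟨e, he⟩ : ∃ e, e = padicValNat 2 n := ⟨_, rfl⟩
  have e1 : 1 ≤ e := by
    rw [he]
    exact one_le_padicValNat_of_dvd (by omega) hn.two_dvd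
  have odd_of : ∀ x c : ℕ, x ≠ 0 → padicValNat 2 x = e → x = 2 ^ e * c → Odd c := by
    intro x c hx hxe hc
    rw [← Nat.not_even_iff_odd]
    intro hev
    obtain ⟨d, hd⟩ := hev.two_dvd
    have : 2 ^ (padicValNat 2 x + 1) ∣ x := ⟨d, by rw [hxe, pow_succ, mul_assoc, ← hd]; exact hc⟩
    exact pow_succ_padicValNat_not_dvd hx this
  have hao : Odd a := odd_of n a (by omega) he.symm (by rw [he]; exact ha)
  have hbo : Odd b := odd_of m b (by omega) (by rw [he]; exact hv.symm) (by rw [he]; exact hb)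
  rw [← he] at ha hb
  obtain ⟨A, hA⟩ : ∃ A, A = 2 ^ e := ⟨_, rfl⟩
  have hAe : Even A := by rw [hA]; exact (Nat.even_pow' (by omega)).2 even_two
  have hA2 : 2 ≤ A := by
    rw [hA]
    calc 2 = 2 ^ 1 := rfl
      _ ≤ 2 ^ e := Nat.pow_le_pow_right (by norm_num) e1
  rw [← hA] at ha hb
  have hab : a ≤ b := by
    have : A * a < A * b := by rw [← ha, ← hb]; exact h
    exact (Nat.lt_of_mul_lt_mul_left this).le
  have key := Pool.Agent.P8H93.PC.not_choosable A a b hAe hA2 hao hbo hab
  have hs : ∑ i, (![n, m] i + 1) / 2 = A * ((a + b) / 2) := by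
    simp only [Fin.sum_univ_two, Matrix.cons_val_zero, Matrix.cons_val_one]
    obtain ⟨x, hx⟩ := hao
    obtain ⟨y, hy⟩ := hbo
    obtain ⟨B, hB⟩ := hAe
    have e1 : (n + 1) / 2 = B * a := by
      have : n = 2 * (B * a) := by rw [ha, hB]; ring
      omega
    have e2 : (m + 1) / 2 = B * b := by
      have : m = 2 * (B * b) := by rw [hb, hB]; ring
      omega
    have e3 : (a + b) / 2 = x + y + 1 := by omega
    rw [e1, e2, e3, hB, hx, hy]
    ring
  rw [hs]
  subst ha hb
  exact key

/-- For all even `n < m` with the same 2-adic valuation, `K_{n,m}` violates (H) and is not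
proportionally `(⌈n/2⌉ + ⌈m/2⌉)`-choosable, so its proportional choice number is not
`⌈n/2⌉ + ⌈m/2⌉`; moreover `K_{2,m}` is proportionally `(m/2 + 2)`-choosable for all even `m ≥ 2`. -/
theorem result :
    (∀ n m : ℕ, 1 ≤ n → n < m → Even n → padicValNat 2 n = padicValNat 2 m →
      ¬ CondH ![n, m] ∧ ¬ PropChoosable (K ![n, m]) (∑ i, (![n, m] i + 1) / 2) ∧
        chiPC (K ![n, m]) ≠ ∑ i, (![n, m] i + 1) / 2) ∧
    (∀ m : ℕ, 2 ≤ m → Even m → PropChoosable (K ![2, m]) (m / 2 + 2)) := by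
  refine ⟨?_, ?_⟩
  · intro n m hn h he hv
    have hnp := not_prop hn h he hv
    refine ⟨not_condH h, hnp, fun e => ?_⟩
    unfold chiPC at e
    have hne : {k | 1 ≤ k ∧ PropChoosable (K ![n, m]) k}.Nonempty := by
      by_contra hc
      rw [Set.not_nonempty_iff_eq_empty] at hc
      rw [hc, Nat.sInf_empty] at e
      simp only [Fin.sum_univ_two, Matrix.cons_val_zero, Matrix.cons_val_one] at e
      omega
    have := Nat.sInf_mem hne
    rw [e] at this
    exact hnp this.2
  · intro m _ hm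
    obtain ⟨x, rfl⟩ := hm
    exact Pool.Agent.P8H93.PC.choosable (x + x) _ (by omega)

end Pool.Agent.Results.MP_f0eba7_co.BipartiteCounterexamples
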